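import Pool.Agent.Helper93.TLH.StB
import Pool.Agent.Helper28.TH.StW
import Pool.Agent.Helper79.TL.StE

/-!
# Project TH (levels `2 p^n`, `f | W_2 = f`): Theorem A modulo `p^M` for the symbols `SymH`, for all weights

Contents of the modules; the model is `Helper79/TL/StE.lean` with `SymH`, `evw 1`, `W = act 0 (-1) (2 p^m) 0`. Differences: invariance under `u` only gives `2 χ ≈ 0` (`UIpH`), so INT needs the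
factor `2`; the base of the induction for `K` is `CoreV p 2`.
-/

set_option autoImplicit false

namespace Pool.Agent.Helper79.THE

open Pool.Agent.Helper14.CV (Homog EqC act Tl)
open Pool.Agent.Helper28.WK (Tw evw)
open Pool.Agent.Helper4.TL (OkE)
open Pool.Agent.Helper93.TLE (DDE)
open Pool.Agent.Helper93.TLH
open Pool.Agent.Helper79.S7 (evc)
open Pool.Agent.Helper79.TL (OkCE)

/-- Killed by all words. -/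
def WzH {R : Type} [AddCommGroup R] (p : ℕ) (m : ℤ) (G : ℤ → ℤ → R) : Prop :=
  ∀ ls : List ℕ, OkE p ls → evw m ls G = 0

/-- The content of EVU. -/
def EvUH (p : ℕ) : Prop := ∀ (R : Type) (_ : AddCommGroup R) (n : ℕ) (G : ℤ → ℤ → R),
  SymH p 0 n G → SymH p 0 (n + 1) (act p 0 0 1 G) ∧
    ∀ ls : List ℕ, OkE p ls → evw 1 ls (act p 0 0 1 G) = evw 1 ls G

/-- The content of BAS: an integral family with determinant prime to `p`. -/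
def BasH (p D : ℕ) (dd : ℕ → ℕ) : Prop := ∀ m : ℕ, 3 ≤ m →
  ∃ (G : Fin (DDE D dd m) → ℤ → ℤ → ℤ) (C : Fin (DDE D dd m) → List (ℤ × List ℕ)),
    (∀ k, SymH p 0 m (G k)) ∧ (∀ l, OkCE p (C l)) ∧
    ¬ (p : ℤ) ∣ Matrix.det (Matrix.of fun k l => evc 1 (C l) (G k))

/-- The content of DIM. -/
def DimH (p D : ℕ) (dd : ℕ → ℕ) : Prop := ∀ (m : ℕ) (G : Fin (DDE D dd m) → (ℤ → ℤ → ℂ)), 3 ≤ m →
  (∀ k, SymH p 0 m (G k)) → LinearIndependent ℂ (fun k => evLH p (G k)) →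
  ∀ H : ℤ → ℤ → ℂ, SymH p 0 m H → evLH p H ∈ Submodule.span ℂ (Set.range fun k => evLH p (G k))

/-- The content of NEX. -/
def NexH (p : ℕ) : Prop := ∀ (m : ℕ) (G0 G1 : ℤ → ℤ → ℂ), 3 ≤ m →
  SymH p 0 (m - 1) G0 → NewSymH p m G1 → (∀ ls : List ℕ, OkE p ls → evw 1 ls G0 + evw 1 ls G1 = 0) → EqC G1 0

/-- The content of KS. -/
def KsH (p : ℕ) : Prop := ∀ (m : ℕ) (G : ℤ → ℤ → ℂ), 3 ≤ m → SymH p 0 m G →
  EqC (act 0 (-1) (2 * (p : ℤ) ^ m) 0 G) (-G) → EqC (act (-1) 0 0 1 G) G → WzH p 1 G →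
  ∃ G' ψ : ℤ → ℤ → ℂ, SymH p 0 (m - 1) G' ∧ SymH p 0 (m - 1) ψ ∧
    EqC (act 0 (-1) (2 * (p : ℤ) ^ (m - 1)) 0 G') (-G') ∧ EqC (act (-1) 0 0 1 G') G' ∧
    WzH p 1 G' ∧ EqC G (G' + (act p 0 0 1 ψ - ψ))

/-- The content of K. -/
def KkH (p : ℕ) : Prop := ∀ (m : ℕ) (G : ℤ → ℤ → ℂ), 3 ≤ m → SymH p 0 m G →
  EqC (act 0 (-1) (2 * (p : ℤ) ^ m) 0 G) (-G) → EqC (act (-1) 0 0 1 G) G → WzH p 1 G →
  ∃ ψ : ℤ → ℤ → ℂ, SymH p 0 (m - 1) ψ ∧ EqC (act p 0 0 1 ψ - ψ) G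

/-- The content of LFT. -/
def LftH (p : ℕ) : Prop := ∀ (m M : ℕ) (g : ℤ → ℤ → ZMod (p ^ M)), 2 ≤ m →
  SymH p 0 m g → ∃ G : ℤ → ℤ → ℤ, SymH p 0 m G ∧ EqC (fun x y => ((G x y : ℤ) : ZMod (p ^ M))) g

/-- The content of CRM. -/
def CrmH (p : ℕ) : Prop := ∀ (m M : ℕ) (g : ℤ → ℤ → ZMod (p ^ M)), 3 ≤ m → SymH p 0 m g → WzH p 1 g →
  ∃ (d : ℤ) (G : ℤ → ℤ → ℤ), ¬ (p : ℤ) ∣ d ∧ SymH p 0 m G ∧ WzH p 1 G ∧
    EqC (fun x y => ((G x y : ℤ) : ZMod (p ^ M))) (d • g)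

/-- The content of INT. -/
def IntH (p : ℕ) : Prop := ∀ (m : ℕ) (ψ : ℤ → ℤ → ℂ) (G : ℤ → ℤ → ℤ), SymH p 0 m ψ →
  EqC (act p 0 0 1 ψ - ψ) (fun x y => ((G x y : ℤ) : ℂ)) →
  ∃ ψ' : ℤ → ℤ → ℤ, SymH p 0 m ψ' ∧ EqC (act p 0 0 1 ψ' - ψ') ((2 : ℤ) • G)

/-- Theorem A for the symbols `SymH`. -/
def TAHe (p : ℕ) : Prop := ∀ (m M : ℕ) (g : ℤ → ℤ → ZMod (p ^ M)), 3 ≤ m → SymH p 0 m g →
  EqC (act 0 (-1) (2 * (p : ℤ) ^ m) 0 g) (-g) → EqC (act (-1) 0 0 1 g) g →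
  (∀ ls : List ℕ, OkE p ls → evw 1 ls g = 0) →
  ∃ ψ : ℤ → ℤ → ZMod (p ^ M), SymH p 0 (m - 1) ψ ∧ EqC (act p 0 0 1 ψ - ψ) ((4 : ℤ) • g)

theorem TAHe.toTAH {p : ℕ} (h : TAHe p) : Pool.Agent.Helper28.TH.TAH p 4 :=
  fun m M g hm hg hW hT hev => h m M g (by omega) hg hW hT hev

end Pool.Agent.Helper79.THE
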