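import Pool.Agent.Helper79.THE.Cyc

/-!
# Lifting solutions of linear equations on a finite set from `ZMod q` to the integers
-/

set_option autoImplicit false

namespace Pool.Agent.Helper79.THE

/-- The difference equation on `ZMod N` over the integers, with a given solution modulo `q`. -/
theorem solveT {N : ℕ} [NeZero N] {q : ℕ} (k : ZMod N → ℤ) (hk : ∑ x, k x = 0)
    (e : ZMod N → ZMod q) (he : ∀ x, e x - e (x + 1) = ((k x : ℤ) : ZMod q)) :
    ∃ F : ZMod N → ℤ, (∀ x, F x - F (x + 1) = k x) ∧ ∀ x, ((F x : ℤ) : ZMod q) = e x := by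
  obtain ⟨F1, hF1⟩ := cycZ k hk
  have hD : ∀ x, ((F1 (x + 1) : ℤ) : ZMod q) - e (x + 1) = ((F1 x : ℤ) : ZMod q) - e x := by
    intro x
    have h1 := he x
    have h2 : ((F1 x - F1 (x + 1) : ℤ) : ZMod q) = ((k x : ℤ) : ZMod q) := by rw [hF1 x]
    rw [Int.cast_sub] at h2
    linear_combination h1 - h2
  have hD0 : ∀ n : ℕ, ((F1 (n : ZMod N) : ℤ) : ZMod q) - e (n : ZMod N) =
      ((F1 0 : ℤ) : ZMod q) - e 0 := by
    intro n
    induction n with
    | zero => rw [Nat.cast_zero]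
    | succ n ih => rw [Nat.cast_succ, hD, ih]
  obtain ⟨c, hc⟩ := ZMod.intCast_surjective (((F1 0 : ℤ) : ZMod q) - e 0)
  refine ⟨fun x => F1 x - c, fun x => ?_, fun x => ?_⟩
  · show F1 x - c - (F1 (x + 1) - c) = k x
    rw [← hF1 x]
    ring
  · show ((F1 x - c : ℤ) : ZMod q) = e x
    have h1 := hD0 x.val
    rw [ZMod.natCast_zmod_val x] at h1
    rw [Int.cast_sub, hc, ← h1]
    ring

/-- The same on `ZMod N × Z`, `Z` with one element. -/
theorem solveP {N : ℕ} [NeZero N] {q : ℕ} {Z : Type} [Fintype Z] (hZ : Unique Z)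
    (k : ZMod N × Z → ℤ) (hk : ∑ x, k x = 0) (e : ZMod N × Z → ZMod q)
    (he : ∀ p, e p - e (p.1 + 1, p.2) = ((k p : ℤ) : ZMod q)) :
    ∃ F : ZMod N × Z → ℤ, (∀ p, F p - F (p.1 + 1, p.2) = k p) ∧
      ∀ p, ((F p : ℤ) : ZMod q) = e p := by
  have hz : ∀ y : Z, hZ.default = y := fun y => (hZ.uniq y).symm
  have hs : ∑ x, k (x, hZ.default) = 0 := by
    rw [Fintype.sum_prod_type] at hk
    rw [← hk]
    refine Finset.sum_congr rfl fun x _ => ?_
    have h1 : ∑ y : Z, k (x, y) = ∑ y : Z, k (x, hZ.default) :=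
      Finset.sum_congr rfl fun y _ => by rw [hz y]
    rw [h1, Finset.sum_const, Finset.card_univ]
    have h2 : Fintype.card Z = 1 := Fintype.card_eq_one_iff.2 ⟨hZ.default, fun y => hZ.uniq y⟩
    rw [h2, one_smul]
  obtain ⟨F, hF1, hF2⟩ := solveT (fun x => k (x, hZ.default)) hs (fun x => e (x, hZ.default))
    (fun x => he (x, hZ.default))
  refine ⟨fun p => F p.1, fun p => ?_, fun p => ?_⟩
  · have h1 := hF1 p.1
    have h2 : ((p.1, hZ.default) : ZMod N × Z) = p := Prod.ext rfl (hz p.2)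
    show F p.1 - F (p.1 + 1) = k p
    rw [h1]
    show k (p.1, hZ.default) = k p
    rw [h2]
  · have h1 := hF2 p.1
    have h2 : ((p.1, hZ.default) : ZMod N × Z) = p := Prod.ext rfl (hz p.2)
    show ((F p.1 : ℤ) : ZMod q) = e p
    rw [h1]
    show e (p.1, hZ.default) = e p
    rw [h2]

/-- `n` is invertible modulo `q`, `(n, q) = 1`. -/
theorem nat_inv {n q : ℕ} (hq : Nat.Coprime n q) : ∃ u : ZMod q, u * (n : ZMod q) = 1 := by
  refine ⟨(((ZMod.unitOfCoprime n hq)⁻¹ : (ZMod q)ˣ) : ZMod q), ?_⟩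
  have h2 := Units.inv_mul (ZMod.unitOfCoprime n hq)
  rwa [ZMod.coe_unitOfCoprime] at h2

/-- Lifting a function with `∑_{i < n} f∘ρ^i = 0`, `ρ^n = 1`, `(n, q) = 1`. -/
theorem liftOrd {P : Type} [Fintype P] (n q : ℕ) (hn0 : 0 < n) (hn : Nat.Coprime n q) (ρ : P → P)
    (hρ : ∀ p, ρ^[n] p = p) (f : P → ZMod q) (hf : ∀ p, ∑ i ∈ Finset.range n, f (ρ^[i] p) = 0) :
    ∃ G : P → ℤ, (∀ p, ∑ i ∈ Finset.range n, G (ρ^[i] p) = 0) ∧ ∑ p, G p = 0 ∧
      ∀ p, ((G p : ℤ) : ZMod q) = f p := by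
  obtain ⟨u, hu⟩ := nat_inv hn
  have hex : ∀ z : ZMod q, ∃ c : ℤ, ((c : ℤ) : ZMod q) = z := ZMod.intCast_surjective
  choose lf hlf using hex
  let a : P → ℤ := fun p => lf (u * ∑ i ∈ Finset.range n, ((n - 1 - i : ℕ) : ZMod q) * f (ρ^[i] p))
  have ha : ∀ p, ((a p : ℤ) : ZMod q) =
      u * ∑ i ∈ Finset.range n, ((n - 1 - i : ℕ) : ZMod q) * f (ρ^[i] p) := fun p => hlf _
  have hinj : Function.Injective ρ := by
    intro x y hxy
    have h1 := congrArg (ρ^[n - 1]) hxy
    rw [← Function.iterate_succ_apply, ← Function.iterate_succ_apply,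
      show (n - 1).succ = n by omega, hρ, hρ] at h1
    exact h1
  have hbij : Function.Bijective ρ := Finite.injective_iff_bijective.1 hinj
  refine ⟨fun p => a p - a (ρ p), fun p => ?_, ?_, fun p => ?_⟩
  · have h1 : ∀ m : ℕ, ∑ i ∈ Finset.range m, (a (ρ^[i] p) - a (ρ (ρ^[i] p))) = a p - a (ρ^[m] p) := by
      intro m
      induction m with
      | zero => simp
      | succ m ih =>
        rw [Finset.sum_range_succ, ih, Function.iterate_succ_apply']
        ring
    show ∑ i ∈ Finset.range n, (a (ρ^[i] p) - a (ρ (ρ^[i] p))) = 0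
    rw [h1, hρ, sub_self]
  · rw [Finset.sum_sub_distrib, hbij.sum_comp a, sub_self]
  · show ((a p - a (ρ p) : ℤ) : ZMod q) = f p
    rw [Int.cast_sub, ha, ha]
    obtain ⟨m, rfl⟩ : ∃ m, n = m + 1 := ⟨n - 1, by omega⟩
    have e1 : ∑ i ∈ Finset.range (m + 1), ((m + 1 - 1 - i : ℕ) : ZMod q) * f (ρ^[i] (ρ p)) =
        ∑ i ∈ Finset.range m, ((m - i : ℕ) : ZMod q) * f (ρ^[i + 1] p) := by
      rw [Finset.sum_range_succ]
      simp only [Nat.add_sub_cancel, Nat.sub_self, Nat.cast_zero, zero_mul, add_zero,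
        Function.iterate_succ_apply]
    have e2 : ∑ i ∈ Finset.range (m + 1), ((m + 1 - 1 - i : ℕ) : ZMod q) * f (ρ^[i] p) =
        ∑ i ∈ Finset.range m, ((m - (i + 1) : ℕ) : ZMod q) * f (ρ^[i + 1] p) + (m : ZMod q) * f p := by
      rw [Finset.sum_range_succ']
      simp only [Nat.add_sub_cancel, Nat.sub_zero, Function.iterate_zero_apply]
    have e3 : ∑ i ∈ Finset.range m, ((m - i : ℕ) : ZMod q) * f (ρ^[i + 1] p) =
        ∑ i ∈ Finset.range m, ((m - (i + 1) : ℕ) : ZMod q) * f (ρ^[i + 1] p) +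
        ∑ i ∈ Finset.range m, f (ρ^[i + 1] p) := by
      rw [← Finset.sum_add_distrib]
      refine Finset.sum_congr rfl fun i hi => ?_
      have h1 : m - i = (m - (i + 1)) + 1 := by
        have := Finset.mem_range.1 hi
        omega
      rw [h1]
      push_cast
      ring
    have e4 : ∑ i ∈ Finset.range m, f (ρ^[i + 1] p) = -f p := by
      have h1 := hf p
      rw [Finset.sum_range_succ'] at h1
      simp only [Function.iterate_zero_apply] at h1
      linear_combination h1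
    rw [e1, e2, e3, e4]
    have hu' : u * ((m : ZMod q) + 1) = 1 := by
      have := hu
      push_cast at this
      exact this
    linear_combination f p * hu'

/-- Integral lift of a function. -/
theorem liftFn {P : Type} {q : ℕ} (f : P → ZMod q) :
    ∃ G : P → ℤ, ∀ p, ((G p : ℤ) : ZMod q) = f p := by
  have hex : ∀ z : ZMod q, ∃ c : ℤ, ((c : ℤ) : ZMod q) = z := ZMod.intCast_surjective
  choose lf hlf using hex
  exact ⟨fun p => lf (f p), fun p => hlf _⟩

end Pool.Agent.Helper79.THE
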