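import Pool.Agent.Helper79.THE.M_TA
import Pool.Agent.Helper79.THE.M_Dim
import Pool.Agent.Helper79.THE.M_Crm
import Pool.Agent.Helper79.THE.M_Ks
import Pool.Agent.Helper79.THE.M_Int
import Pool.Agent.Helper79.THE.M_EvU
import Pool.Agent.Helper93.TLH.Asm

/-!
# Project TH: Theorem A for the symbols `SymH`, assembled (general odd prime)
-/

set_option autoImplicit false

namespace Pool.Agent.Helper79.THE

open Pool.Agent.Helper4.TL (OkE)
open Pool.Agent.Helper93.TLE (DDE)
open Pool.Agent.Helper93.TLH

/-- Theorem A for the symbols `SymH`, from the dimension bounds, an integral basis and the lifting of symbols. -/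
theorem hTAHof (p D : ℕ) (dd : ℕ → ℕ) (hp : p.Prime) (hp2 : p ≠ 2) (b : B3bH p D) (ub : UBH p dd)
    (lb : LBH p D dd) (base : CoreV p 2) (bas : BasH p D dd) (lft : LftH p)
    (uip : Pool.Agent.Helper28.TH.UIpH) : TAHe p := by
  have dim := hDim p D dd hp hp2 b3aH b ub
  have nex := hNex p D dd hp hp2 b3aH b ub lb
  have evu : EvUH p := hEvU p hp hp2 (fun R inst n G hG l hl h2 h3 => hksH p hp hp2 R inst n G hG l hl h2 h3)
  have ks := hKs avgH Pool.Agent.Helper29.TLH.hCom evH p hp hp2 nex evu
  have kk := hKk p ks base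
  have crm := hCrm p D dd bas dim lft
  have int := hInt uip p hp hp2
  exact hTA avgH Pool.Agent.Helper29.TLH.hCom evH p hp hp2 crm kk int

end Pool.Agent.Helper79.THE
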