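import Mathlib

/-!
# A function of sum zero on `ZMod N` is a difference
-/

set_option autoImplicit false

namespace Pool.Agent.Helper79.THE

/-- A function of sum zero on `ZMod N` is a difference. -/
theorem cycZ {N : ℕ} [NeZero N] (k : ZMod N → ℤ) (hk : ∑ x, k x = 0) :
    ∃ F : ZMod N → ℤ, ∀ x, F x - F (x + 1) = k x := by
  have hN : 0 < N := Nat.pos_of_ne_zero (NeZero.ne N)
  refine ⟨fun x => -∑ i ∈ Finset.range x.val, k (i : ZMod N), fun x => ?_⟩
  have hx : ((x.val : ℕ) : ZMod N) = x := ZMod.natCast_zmod_val x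
  have hlt := ZMod.val_lt x
  rcases Nat.lt_or_ge (x.val + 1) N with h | h
  · have e : (x + 1).val = x.val + 1 := by
      have e1 : x + 1 = ((x.val + 1 : ℕ) : ZMod N) := by push_cast; rw [hx]
      rw [e1, ZMod.val_natCast, Nat.mod_eq_of_lt h]
    show -∑ i ∈ Finset.range x.val, k (i : ZMod N) -
      -∑ i ∈ Finset.range (x + 1).val, k (i : ZMod N) = k x
    rw [e, Finset.sum_range_succ, hx]
    ring
  · have hxN : x.val + 1 = N := by omega
    have e : x + 1 = 0 := by
      have e1 : x + 1 = ((x.val + 1 : ℕ) : ZMod N) := by push_cast; rw [hx]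
      rw [e1, hxN, ZMod.natCast_self]
    have hs : ∑ i ∈ Finset.range N, k (i : ZMod N) = 0 := by
      rw [← hk]
      refine Finset.sum_bij (fun i _ => (i : ZMod N)) (fun i _ => Finset.mem_univ _) ?_ ?_ (fun i _ => rfl)
      · intro i hi j hj hij
        have h1 := congrArg ZMod.val hij
        rw [ZMod.val_natCast, ZMod.val_natCast, Nat.mod_eq_of_lt (Finset.mem_range.1 hi),
          Nat.mod_eq_of_lt (Finset.mem_range.1 hj)] at h1
        exact h1
      · intro z _
        exact ⟨z.val, Finset.mem_range.2 (ZMod.val_lt z), ZMod.natCast_zmod_val z⟩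
    show -∑ i ∈ Finset.range x.val, k (i : ZMod N) -
      -∑ i ∈ Finset.range (x + 1).val, k (i : ZMod N) = k x
    rw [e, ZMod.val_zero, Finset.sum_range_zero]
    have h2 := Finset.sum_range_succ (fun i : ℕ => k (i : ZMod N)) x.val
    rw [hxN, hs, hx] at h2
    linarith

/-- `2` is invertible modulo odd `q`. -/
theorem two_inv {q : ℕ} (hq : Odd q) : ∃ u : ZMod q, u * 2 = 1 := by
  have h : Nat.Coprime 2 q := Nat.coprime_two_left.2 hq
  have h1 : ((ZMod.unitOfCoprime 2 h : (ZMod q)ˣ) : ZMod q) = 2 := by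
    rw [ZMod.coe_unitOfCoprime]; rfl
  refine ⟨(((ZMod.unitOfCoprime 2 h)⁻¹ : (ZMod q)ˣ) : ZMod q), ?_⟩
  have h2 := Units.inv_mul (ZMod.unitOfCoprime 2 h)
  rw [h1] at h2
  exact h2

end Pool.Agent.Helper79.THE
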