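import Pool.Agent.Helper79.THE.Asm
import Pool.Agent.Helper79.THE.M_Lft5
import Pool.Agent.Helper4.TH.Core
import Pool.Agent.Helper76.TH.M_Bas
import Pool.Agent.Helper94.THW.M_UIp

/-!
# Project TH: Theorem A for the symbols `SymH` and the prime `5`
-/

set_option autoImplicit false

namespace Pool.Agent.Helper79.THE

open Pool.Agent.Helper4.TH Pool.Agent.Helper93.TLH

/-- Integral symbols with balanced `e`-part, `p = 5`: Theorem A modulo every power of `5`. -/
theorem taeH5 : TAHe 5 :=
  hTAHof 5 2 ddH5 (by norm_num) (by norm_num)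
    (Pool.Agent.Helper83.TLH.hB3b avgH evH bsH5)
    Pool.Agent.Helper76.TH.ubh5 lbH5 coreV52
    (Pool.Agent.Helper76.TH.hBasH5 triT lifT cntT) (hLft5 trm solT relT exT uniT)
    Pool.Agent.Helper94.THW.hUIp

/-- The hypothesis of the analytic part, `p = 5`. -/
theorem tah5 : Pool.Agent.Helper28.TH.TAH 5 4 := TAHe.toTAH taeH5

end Pool.Agent.Helper79.THE
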