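import Pool.Agent.Helper79.THE.Cyc
import Pool.Agent.Helper93.TH3.StD

/-!
# Project TH (`3`): lifting solutions of the relations from `ZMod q` (`q` odd) to the integers, planes of type `(r, 0)`

The translation `A` is one cycle on the plane; for `F0 = F1 = F2 = f`, `F3 = F4 = 0` the third relation is `f∘A - f`: it is onto the functions of sum zero.
-/

set_option autoImplicit false

namespace Pool.Agent.Helper79.THE

open Pool.Agent.Helper78.W3 (tr S3Trm)
open Pool.Agent.Helper93.TH3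

namespace LiftM3H

private abbrev Pq (r : ℕ) : Type := ZMod (3 ^ r) × ZMod (3 ^ 0)

private def mu {r : ℕ} (a b c d : ℤ) (p : Pq r) : Pq r :=
  tr a b c d (fun x y => ((x, y) : Pq r)) p.1 p.2

private theorem mu_mul (hTrm : S3Trm) {r : ℕ} {a b c d a' b' c' d' : ℤ} (h1 : ¬ 3 ∣ a)
    (h2 : ¬ 3 ∣ d) (h3 : ¬ 3 ∣ a') (h4 : ¬ 3 ∣ d') (p : Pq r) :
    mu a' b' c' d' (mu a b c d p) =
      mu (a * a' + 9 * b * c') (a * b' + b * d') (c * a' + d * c') (9 * c * b' + d * d') p := by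
  have h := congrFun (congrFun ((hTrm (Pq r) r 0 (fun x y => (x, y))).1 a b c d a' b' c' d'
    h1 h2 h3 h4) p.1) p.2
  exact h

private theorem mu_sc (hTrm : S3Trm) {r : ℕ} (k : ℤ) (hk : ¬ 3 ∣ k) (p : Pq r) :
    mu (k * 1) (k * 0) (k * 0) (k * 1) p = p := by
  have h := congrFun (congrFun ((hTrm (Pq r) r 0 (fun x y => (x, y))).2.2 k 1 0 0 1 hk
    (by norm_num) (by norm_num)) p.1) p.2
  have h1 := congrFun (congrFun (hTrm (Pq r) r 0 (fun x y => (x, y))).2.1 p.1) p.2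
  exact h.trans h1

/-- The sum over the plane does not change under a matrix with an inverse up to a scalar. -/
private theorem sum_mu (hTrm : S3Trm) {r : ℕ} (a b c d : ℤ) (h1 : ¬ 3 ∣ a) (h2 : ¬ 3 ∣ d)
    (h3 : ¬ 3 ∣ a * d - 9 * b * c) (F : Pq r → ℤ) : ∑ p, F (mu a b c d p) = ∑ p, F p := by
  have hb : Function.Bijective (mu a b c d : Pq r → Pq r) := by
    refine Finite.injective_iff_bijective.1 ?_
    have hl : Function.LeftInverse (mu d (-b) (-c) a : Pq r → Pq r) (mu a b c d) := by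
      intro p
      rw [mu_mul hTrm h1 h2 h2 h1]
      have e := mu_sc hTrm (r := r) (a * d - 9 * b * c) h3 p
      have e1 : a * d + 9 * b * -c = (a * d - 9 * b * c) * 1 := by ring
      have e2 : a * -b + b * a = (a * d - 9 * b * c) * 0 := by ring
      have e3 : c * d + d * -c = (a * d - 9 * b * c) * 0 := by ring
      have e4 : 9 * c * -b + d * a = (a * d - 9 * b * c) * 1 := by ring
      rw [e1, e2, e3, e4]
      exact e
    exact hl.injective
  exact hb.sum_comp F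

private theorem mA_eq {r : ℕ} (p : Pq r) : mu 1 1 0 1 p = (p.1 + 1, p.2) := by
  have i1 : ((1 : ZMod (3 ^ r)))⁻¹ = 1 := ZMod.inv_eq_of_mul_eq_one _ _ _ (by ring)
  have hs : ∀ u v : ZMod (3 ^ 0), u = v := by
    intro u v
    have h : Subsingleton (ZMod (3 ^ 0)) := by
      rw [pow_zero]; infer_instance
    exact h.elim u v
  unfold mu tr
  refine Prod.ext ?_ (hs _ _)
  show (((1 : ℤ) : ZMod (3 ^ r)) + ((1 : ℤ) : ZMod (3 ^ r)) * p.1) *
    (((1 : ℤ) : ZMod (3 ^ r)) + 9 * ((0 : ℤ) : ZMod (3 ^ r)) * p.1)⁻¹ = p.1 + 1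
  rw [Int.cast_one, Int.cast_zero, mul_zero, zero_mul, add_zero, i1]
  ring

private def mA {r : ℕ} : Pq r → Pq r := mu 1 1 0 1
private def ms {r : ℕ} : Pq r → Pq r := mu 4 (-1) 2 (-4)
private def ms' {r : ℕ} : Pq r → Pq r := mu 4 1 (-2) (-4)
private def mg {r : ℕ} : Pq r → Pq r := mu 8 (-1) 2 (-2)
private def mg' {r : ℕ} : Pq r → Pq r := mu 10 1 2 2

private theorem mss (hTrm : S3Trm) {r : ℕ} (p : Pq r) : ms (ms p) = p := by
  unfold ms
  rw [mu_mul hTrm (by norm_num) (by norm_num) (by norm_num) (by norm_num)]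
  have e := mu_sc hTrm (r := r) (-2) (by norm_num) p
  norm_num at e ⊢
  exact e

private theorem mss' (hTrm : S3Trm) {r : ℕ} (p : Pq r) : ms' (ms' p) = p := by
  unfold ms'
  rw [mu_mul hTrm (by norm_num) (by norm_num) (by norm_num) (by norm_num)]
  have e := mu_sc hTrm (r := r) (-2) (by norm_num) p
  norm_num at e ⊢
  exact e

theorem main (hm : S3Trm) (r q : ℕ) (hq : Odd q)
    (f : Fin 5 → ZMod (3 ^ r) → ZMod (3 ^ 0) → ZMod q) (hf : RelT f) :
    ∃ F : Fin 5 → ZMod (3 ^ r) → ZMod (3 ^ 0) → ℤ, RelT F ∧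
      ∀ i x y, ((F i x y : ℤ) : ZMod q) = f i x y := by
  have hq0 : q ≠ 0 := by
    rintro rfl
    exact absurd hq (by decide)
  have hM : NeZero q := ⟨hq0⟩
  have hN : NeZero (3 ^ r) := ⟨by positivity⟩
  have hN0 : NeZero (3 ^ 0) := ⟨by positivity⟩
  obtain ⟨u, hu⟩ := two_inv hq
  let k : Pq r → ZMod q := fun p => f 0 p.1 p.2 - f 1 p.1 p.2 - f 3 p.1 p.2
  let k' : Pq r → ZMod q := fun p => f 0 p.1 p.2 - f 2 p.1 p.2 - f 4 p.1 p.2
  let f0 : Pq r → ℤ := fun p => ((f 0 p.1 p.2).val : ℤ)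
  let f1 : Pq r → ℤ := fun p => ((f 1 p.1 p.2).val : ℤ)
  let f2 : Pq r → ℤ := fun p => ((f 2 p.1 p.2).val : ℤ)
  let b : Pq r → ℤ := fun p => ((u * k p).val : ℤ)
  let b' : Pq r → ℤ := fun p => ((u * k' p).val : ℤ)
  have cv : ∀ z : ZMod q, (((z.val : ℤ)) : ZMod q) = z := by
    intro z
    push_cast
    exact ZMod.natCast_zmod_val _
  have h0 : ∀ p, ((f0 p : ℤ) : ZMod q) = f 0 p.1 p.2 := fun p => cv _
  have h1 : ∀ p, ((f1 p : ℤ) : ZMod q) = f 1 p.1 p.2 := fun p => cv _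
  have h2 : ∀ p, ((f2 p : ℤ) : ZMod q) = f 2 p.1 p.2 := fun p => cv _
  have hb : ∀ p, ((b p : ℤ) : ZMod q) = u * k p := fun p => cv _
  have hb' : ∀ p, ((b' p : ℤ) : ZMod q) = u * k' p := fun p => cv _
  have r1 : ∀ p : Pq r, k p + k (ms p) = 0 := fun p => hf.1 p.1 p.2
  have r2 : ∀ p : Pq r, k' p + k' (ms' p) = 0 := fun p => hf.2.1 p.1 p.2
  have r3 : ∀ p : Pq r, -f 1 p.1 p.2 + f 2 (mA p).1 (mA p).2 - f 3 (mg p).1 (mg p).2 +
      f 4 (mg' p).1 (mg' p).2 = 0 := fun p => hf.2.2 p.1 p.2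
  let g3 : Pq r → ℤ := fun p => f0 p - f1 p - (b p - b (ms p))
  let g4 : Pq r → ℤ := fun p => f0 p - f2 p - (b' p - b' (ms' p))
  have h3 : ∀ p, ((g3 p : ℤ) : ZMod q) = f 3 p.1 p.2 := by
    intro p
    show ((f0 p - f1 p - (b p - b (ms p)) : ℤ) : ZMod q) = f 3 p.1 p.2
    push_cast
    rw [h0, h1, hb, hb]
    have e1 := r1 p
    have e2 : k p = f 0 p.1 p.2 - f 1 p.1 p.2 - f 3 p.1 p.2 := rfl
    linear_combination u * e1 - k p * hu - e2
  have h4 : ∀ p, ((g4 p : ℤ) : ZMod q) = f 4 p.1 p.2 := by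
    intro p
    show ((f0 p - f2 p - (b' p - b' (ms' p)) : ℤ) : ZMod q) = f 4 p.1 p.2
    push_cast
    rw [h0, h2, hb', hb']
    have e1 := r2 p
    have e2 : k' p = f 0 p.1 p.2 - f 2 p.1 p.2 - f 4 p.1 p.2 := rfl
    linear_combination u * e1 - k' p * hu - e2
  let E : Pq r → ℤ := fun p => -f1 p + f2 (mA p) - g3 (mg p) + g4 (mg' p)
  have hEd : ∀ p, (q : ℤ) ∣ E p := by
    intro p
    rw [← ZMod.intCast_zmod_eq_zero_iff_dvd]
    show ((-f1 p + f2 (mA p) - g3 (mg p) + g4 (mg' p) : ℤ) : ZMod q) = 0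
    push_cast
    rw [h1, h2, h3, h4]
    exact r3 p
  choose h hh using hEd
  have sA : ∀ F : Pq r → ℤ, ∑ p, F (mA p) = ∑ p, F p := fun F =>
    sum_mu hm 1 1 0 1 (by norm_num) (by norm_num) (by norm_num) F
  have ss : ∀ F : Pq r → ℤ, ∑ p, F (ms p) = ∑ p, F p := fun F =>
    sum_mu hm 4 (-1) 2 (-4) (by norm_num) (by norm_num) (by norm_num) F
  have ss' : ∀ F : Pq r → ℤ, ∑ p, F (ms' p) = ∑ p, F p := fun F =>
    sum_mu hm 4 1 (-2) (-4) (by norm_num) (by norm_num) (by norm_num) F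
  have sg : ∀ F : Pq r → ℤ, ∑ p, F (mg p) = ∑ p, F p := fun F =>
    sum_mu hm 8 (-1) 2 (-2) (by norm_num) (by norm_num) (by norm_num) F
  have sg' : ∀ F : Pq r → ℤ, ∑ p, F (mg' p) = ∑ p, F p := fun F =>
    sum_mu hm 10 1 2 2 (by norm_num) (by norm_num) (by norm_num) F
  have hsumE : ∑ p, E p = 0 := by
    have e0 : ∑ p, E p = -∑ p, f1 p + ∑ p, f2 (mA p) - ∑ p, g3 (mg p) + ∑ p, g4 (mg' p) := by
      simp only [E, Finset.sum_add_distrib, Finset.sum_sub_distrib, Finset.sum_neg_distrib]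
    have e3 : ∑ p, g3 p = ∑ p, f0 p - ∑ p, f1 p - (∑ p, b p - ∑ p, b (ms p)) := by
      simp only [g3, Finset.sum_sub_distrib]
    have e4 : ∑ p, g4 p = ∑ p, f0 p - ∑ p, f2 p - (∑ p, b' p - ∑ p, b' (ms' p)) := by
      simp only [g4, Finset.sum_sub_distrib]
    rw [e0, sA f2, sg g3, sg' g4, e3, e4, ss b, ss' b']
    ring
  have hsumh : ∑ p, h p = 0 := by
    have e1 : (q : ℤ) * ∑ p, h p = 0 := by
      rw [Finset.mul_sum, ← hsumE]
      exact Finset.sum_congr rfl fun p _ => (hh p).symm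
    rcases mul_eq_zero.1 e1 with e2 | e2
    · exact absurd (by exact_mod_cast e2) hq0
    · exact e2
  have hun : Unique (ZMod (3 ^ 0)) := by
    rw [pow_zero]; infer_instance
  have hz : ∀ y : ZMod (3 ^ 0), y = 0 := by
    intro y
    rw [hun.uniq y, hun.uniq 0]
  let kk : ZMod (3 ^ r) → ℤ := fun x => -h (x, 0)
  have hk : ∑ x, kk x = 0 := by
    have s1 := hsumh
    rw [Fintype.sum_prod_type] at s1
    have s2 : ∑ x : ZMod (3 ^ r), h (x, 0) = 0 := by
      rw [← s1]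
      refine Finset.sum_congr rfl fun x _ => ?_
      rw [Fintype.sum_unique]
      exact congrArg (fun y : ZMod (3 ^ 0) => h (x, y)) (hz _).symm
    show ∑ x : ZMod (3 ^ r), -h (x, 0) = 0
    rw [Finset.sum_neg_distrib, s2, neg_zero]
  obtain ⟨K, hK⟩ := cycZ kk hk
  have hKp : ∀ p : Pq r, K p.1 - K (mA p).1 = -h p := by
    intro p
    have e0 : mA p = (p.1 + 1, p.2) := mA_eq p
    rw [e0]
    have e1 := hK p.1
    have e3 : ((p.1, 0) : Pq r) = p := Prod.ext rfl (hz _).symm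
    show K p.1 - K (p.1 + 1) = -h p
    rw [e1]
    show -h (p.1, 0) = -h p
    rw [e3]
  refine ⟨![fun x y => f0 (x, y) - q * K x, fun x y => f1 (x, y) - q * K x,
    fun x y => f2 (x, y) - q * K x, fun x y => g3 (x, y), fun x y => g4 (x, y)], ?_, ?_⟩
  · refine ⟨?_, ?_, ?_⟩
    · intro x y
      show (f0 (x, y) - q * K x) - (f1 (x, y) - q * K x) - g3 (x, y) +
        ((f0 (ms (x, y)) - q * K (ms (x, y)).1) - (f1 (ms (x, y)) - q * K (ms (x, y)).1) -
          g3 (ms (x, y))) = 0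
      simp only [g3]
      rw [mss hm]
      ring
    · intro x y
      show (f0 (x, y) - q * K x) - (f2 (x, y) - q * K x) - g4 (x, y) +
        ((f0 (ms' (x, y)) - q * K (ms' (x, y)).1) - (f2 (ms' (x, y)) - q * K (ms' (x, y)).1) -
          g4 (ms' (x, y))) = 0
      simp only [g4]
      rw [mss' hm]
      ring
    · intro x y
      show -(f1 (x, y) - q * K x) + (f2 (mA (x, y)) - q * K (mA (x, y)).1) -
        g3 (mg (x, y)) + g4 (mg' (x, y)) = 0
      have e1 := hh (x, y)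
      have e2 := hKp (x, y)
      have e3 : E (x, y) = -f1 (x, y) + f2 (mA (x, y)) - g3 (mg (x, y)) + g4 (mg' (x, y)) := rfl
      have e4 : K x - K (mA (x, y)).1 = -h (x, y) := e2
      linear_combination (-1 : ℤ) * e3 + e1 + (q : ℤ) * e4
  · intro i x y
    fin_cases i
    · show ((f0 (x, y) - q * K x : ℤ) : ZMod q) = f 0 x y
      push_cast
      rw [h0, ZMod.natCast_self, zero_mul, sub_zero]
    · show ((f1 (x, y) - q * K x : ℤ) : ZMod q) = f 1 x y
      push_cast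
      rw [h1, ZMod.natCast_self, zero_mul, sub_zero]
    · show ((f2 (x, y) - q * K x : ℤ) : ZMod q) = f 2 x y
      push_cast
      rw [h2, ZMod.natCast_self, zero_mul, sub_zero]
    · exact h3 (x, y)
    · exact h4 (x, y)

end LiftM3H

/-- Lifting solutions of the relations for `p = 3`. -/
theorem liftCoreH3 (hm : S3Trm) (r q : ℕ) (hq : Odd q)
    (f : Fin 5 → ZMod (3 ^ r) → ZMod (3 ^ 0) → ZMod q) (hf : RelT f) :
    ∃ F : Fin 5 → ZMod (3 ^ r) → ZMod (3 ^ 0) → ℤ, RelT F ∧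
      ∀ i x y, ((F i x y : ℤ) : ZMod q) = f i x y :=
  LiftM3H.main hm r q hq f hf

end Pool.Agent.Helper79.THE
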