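import Pool.Agent.Helper14.TH7.StD

/-!
# Project TH (`7`): lifting solutions of the relation from `ZMod q` to the integers, planes of type `(r, 0)`

The translation `T` is one cycle on the plane, and the relation applied to `(F0, 0, 0)` is `F0∘η - F0∘T∘η`: it is onto the functions of sum zero.
-/

set_option autoImplicit false

namespace Pool.Agent.Helper79.THE

open Pool.Agent.Helper84.S7 (tr7 S7Trm)
open Pool.Agent.Helper14.TH7

namespace LiftM7H

private abbrev Pq (r : ℕ) : Type := ZMod (7 ^ r) × ZMod (7 ^ 0)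

private def mu {r : ℕ} (a b c d : ℤ) (p : Pq r) : Pq r :=
  tr7 a b c d (fun x y => ((x, y) : Pq r)) p.1 p.2

private theorem mu_mul (hTrm : S7Trm) {r : ℕ} {a b c d a' b' c' d' : ℤ} (h1 : ¬ 7 ∣ a)
    (h2 : ¬ 7 ∣ d) (h3 : ¬ 7 ∣ a') (h4 : ¬ 7 ∣ d') (p : Pq r) :
    mu a' b' c' d' (mu a b c d p) =
      mu (a * a' + 7 * b * c') (a * b' + b * d') (c * a' + d * c') (7 * c * b' + d * d') p := by
  have h := congrFun (congrFun ((hTrm (Pq r) r 0 (fun x y => (x, y))).1 a b c d a' b' c' d'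
    h1 h2 h3 h4) p.1) p.2
  exact h

private theorem mu_sc (hTrm : S7Trm) {r : ℕ} (k : ℤ) (hk : ¬ 7 ∣ k) (p : Pq r) :
    mu (k * 1) (k * 0) (k * 0) (k * 1) p = p := by
  have h := congrFun (congrFun ((hTrm (Pq r) r 0 (fun x y => (x, y))).2.2 k 1 0 0 1 hk
    (by norm_num) (by norm_num)) p.1) p.2
  have h1 := congrFun (congrFun (hTrm (Pq r) r 0 (fun x y => (x, y))).2.1 p.1) p.2
  exact h.trans h1

/-- The sum over the plane does not change under a matrix with an inverse up to a scalar. -/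
private theorem sum_mu (hTrm : S7Trm) {r : ℕ} (a b c d : ℤ) (h1 : ¬ 7 ∣ a) (h2 : ¬ 7 ∣ d)
    (h3 : ¬ 7 ∣ a * d - 7 * b * c) (F : Pq r → ℤ) : ∑ p, F (mu a b c d p) = ∑ p, F p := by
  have hb : Function.Bijective (mu a b c d : Pq r → Pq r) := by
    refine Finite.injective_iff_bijective.1 ?_
    have hl : Function.LeftInverse (mu d (-b) (-c) a : Pq r → Pq r) (mu a b c d) := by
      intro p
      rw [mu_mul hTrm h1 h2 h2 h1]
      have e := mu_sc hTrm (r := r) (a * d - 7 * b * c) h3 p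
      have e1 : a * d + 7 * b * -c = (a * d - 7 * b * c) * 1 := by ring
      have e2 : a * -b + b * a = (a * d - 7 * b * c) * 0 := by ring
      have e3 : c * d + d * -c = (a * d - 7 * b * c) * 0 := by ring
      have e4 : 7 * c * -b + d * a = (a * d - 7 * b * c) * 1 := by ring
      rw [e1, e2, e3, e4]
      exact e
    exact hl.injective
  exact hb.sum_comp F

/-- A function of sum zero on `ZMod N` is a difference. -/
private theorem cyc {N : ℕ} [NeZero N] (k : ZMod N → ℤ) (hk : ∑ x, k x = 0) :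
    ∃ F : ZMod N → ℤ, ∀ x, F x - F (x + 1) = k x := by
  have hN : 0 < N := Nat.pos_of_ne_zero (NeZero.ne N)
  refine ⟨fun x => -∑ i ∈ Finset.range x.val, k (i : ZMod N), fun x => ?_⟩
  have hx : ((x.val : ℕ) : ZMod N) = x := ZMod.natCast_zmod_val x
  have hlt := ZMod.val_lt x
  rcases Nat.lt_or_ge (x.val + 1) N with h | h
  · have e : (x + 1).val = x.val + 1 := by
      have e1 : x + 1 = ((x.val + 1 : ℕ) : ZMod N) := by push_cast; rw [hx]
      rw [e1, ZMod.val_natCast, Nat.mod_eq_of_lt h]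
    show -∑ i ∈ Finset.range x.val, k (i : ZMod N) -
      -∑ i ∈ Finset.range (x + 1).val, k (i : ZMod N) = k x
    rw [e, Finset.sum_range_succ, hx]
    ring
  · have hxN : x.val + 1 = N := by omega
    have e : x + 1 = 0 := by
      have e1 : x + 1 = ((x.val + 1 : ℕ) : ZMod N) := by push_cast; rw [hx]
      rw [e1, hxN, ZMod.natCast_self]
    have hs : ∑ i ∈ Finset.range N, k (i : ZMod N) = 0 := by
      rw [← hk]
      refine Finset.sum_bij (fun i _ => (i : ZMod N)) (fun i _ => Finset.mem_univ _) ?_ ?_ (fun i _ => rfl)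
      · intro i hi j hj hij
        have h1 := congrArg ZMod.val hij
        rw [ZMod.val_natCast, ZMod.val_natCast, Nat.mod_eq_of_lt (Finset.mem_range.1 hi),
          Nat.mod_eq_of_lt (Finset.mem_range.1 hj)] at h1
        exact h1
      · intro z _
        exact ⟨z.val, Finset.mem_range.2 (ZMod.val_lt z), ZMod.natCast_zmod_val z⟩
    show -∑ i ∈ Finset.range x.val, k (i : ZMod N) -
      -∑ i ∈ Finset.range (x + 1).val, k (i : ZMod N) = k x
    rw [e, ZMod.val_zero, Finset.sum_range_zero]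
    have h2 := Finset.sum_range_succ (fun i : ℕ => k (i : ZMod N)) x.val
    rw [hxN, hs, hx] at h2
    linarith

private theorem mT_eq {r : ℕ} (p : Pq r) : mu 1 1 0 1 p = (p.1 + 1, p.2) := by
  have i1 : ((1 : ZMod (7 ^ r)))⁻¹ = 1 := ZMod.inv_eq_of_mul_eq_one _ _ _ (by ring)
  have hs : ∀ u v : ZMod (7 ^ 0), u = v := by
    intro u v
    have h : Subsingleton (ZMod (7 ^ 0)) := by
      rw [pow_zero]; infer_instance
    exact h.elim u v
  unfold mu tr7
  refine Prod.ext ?_ (hs _ _)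
  show (((1 : ℤ) : ZMod (7 ^ r)) + ((1 : ℤ) : ZMod (7 ^ r)) * p.1) *
    (((1 : ℤ) : ZMod (7 ^ r)) + 7 * ((0 : ℤ) : ZMod (7 ^ r)) * p.1)⁻¹ = p.1 + 1
  rw [Int.cast_one, Int.cast_zero, mul_zero, zero_mul, add_zero, i1]
  ring

theorem main (hm : S7Trm) (r q : ℕ) (hq0 : q ≠ 0)
    (f : Fin 3 → ZMod (7 ^ r) → ZMod (7 ^ 0) → ZMod q) (hf : RelH f) :
    ∃ F : Fin 3 → ZMod (7 ^ r) → ZMod (7 ^ 0) → ℤ, RelH F ∧
      ∀ i x y, ((F i x y : ℤ) : ZMod q) = f i x y := by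
  have hM : NeZero q := ⟨hq0⟩
  have hN : NeZero (7 ^ r) := ⟨by positivity⟩
  have hN0 : NeZero (7 ^ 0) := ⟨by positivity⟩
  let F1 : Fin 3 → ZMod (7 ^ r) → ZMod (7 ^ 0) → ℤ := fun i x y => ((f i x y).val : ℤ)
  have hF1 : ∀ i x y, ((F1 i x y : ℤ) : ZMod q) = f i x y := by
    intro i x y
    show ((((f i x y).val : ℤ)) : ZMod q) = _
    push_cast
    exact ZMod.natCast_zmod_val _
  -- the defect
  let E : Pq r → ℤ := fun p => DfH F1 p.1 p.2
  have hE : ∀ p, E p = F1 1 p.1 p.2 - F1 1 (mu 4 (-3) 2 (-10) p).1 (mu 4 (-3) 2 (-10) p).2 +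
      (F1 0 (mu 4 (-3) 2 (-10) p).1 (mu 4 (-3) 2 (-10) p).2 -
        F1 0 (mu 4 1 2 4 p).1 (mu 4 1 2 4 p).2) -
      (F1 2 p.1 p.2 - F1 2 (mu 6 (-1) 2 (-2) p).1 (mu 6 (-1) 2 (-2) p).2) := fun p => rfl
  have hEd : ∀ p, (q : ℤ) ∣ E p := by
    intro p
    rw [← ZMod.intCast_zmod_eq_zero_iff_dvd]
    have h := hf p.1 p.2
    have h' : f 1 p.1 p.2 - f 1 (mu 4 (-3) 2 (-10) p).1 (mu 4 (-3) 2 (-10) p).2 +
      (f 0 (mu 4 (-3) 2 (-10) p).1 (mu 4 (-3) 2 (-10) p).2 -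
        f 0 (mu 4 1 2 4 p).1 (mu 4 1 2 4 p).2) -
      (f 2 p.1 p.2 - f 2 (mu 6 (-1) 2 (-2) p).1 (mu 6 (-1) 2 (-2) p).2) = 0 := h
    rw [hE]
    push_cast
    rw [hF1, hF1, hF1, hF1, hF1, hF1]
    exact h'
  choose h hh using hEd
  have hsumE : ∑ p, E p = 0 := by
    have s1 := sum_mu hm (r := r) 4 (-3) 2 (-10) (by norm_num) (by norm_num) (by norm_num)
      (fun p => F1 1 p.1 p.2)
    have s2 := sum_mu hm (r := r) 4 (-3) 2 (-10) (by norm_num) (by norm_num) (by norm_num)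
      (fun p => F1 0 p.1 p.2)
    have s3 := sum_mu hm (r := r) 4 1 2 4 (by norm_num) (by norm_num) (by norm_num)
      (fun p => F1 0 p.1 p.2)
    have s4 := sum_mu hm (r := r) 6 (-1) 2 (-2) (by norm_num) (by norm_num) (by norm_num)
      (fun p => F1 2 p.1 p.2)
    simp only [hE, Finset.sum_add_distrib, Finset.sum_sub_distrib]
    rw [s1, s2, s3, s4]
    ring
  have hsumh : ∑ p, h p = 0 := by
    have h1 : (q : ℤ) * ∑ p, h p = 0 := by
      rw [Finset.mul_sum, ← hsumE]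
      exact Finset.sum_congr rfl fun p _ => (hh p).symm
    rcases mul_eq_zero.1 h1 with h0 | h0
    · exact absurd (by exact_mod_cast h0) hq0
    · exact h0
  -- the correction
  have hu : Unique (ZMod (7 ^ 0)) := by
    rw [pow_zero]; infer_instance
  have hz : ∀ y : ZMod (7 ^ 0), y = 0 := by
    intro y
    rw [hu.uniq y, hu.uniq 0]
  let k : ZMod (7 ^ r) → ℤ := fun x => h (mu (-10) 3 (-2) 4 (x, 0))
  have hk : ∑ x, k x = 0 := by
    have s1 := sum_mu hm (r := r) (-10) 3 (-2) 4 (by norm_num) (by norm_num) (by norm_num) h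
    rw [hsumh, Fintype.sum_prod_type] at s1
    rw [← s1]
    refine Finset.sum_congr rfl fun x _ => ?_
    rw [Fintype.sum_unique]
    exact congrArg (fun y : ZMod (7 ^ 0) => h (mu (-10) 3 (-2) 4 (x, y))) (hz _).symm
  obtain ⟨K, hK⟩ := cyc k hk
  have hKp : ∀ p : Pq r, K (mu 4 (-3) 2 (-10) p).1 - K (mu 4 1 2 4 p).1 = h p := by
    intro p
    have e1 : mu 1 1 0 1 (mu 4 (-3) 2 (-10) p) = mu 4 1 2 4 p := by
      rw [mu_mul hm (by norm_num) (by norm_num) (by norm_num) (by norm_num)]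
      norm_num
    have e2 : mu (-10) 3 (-2) 4 (mu 4 (-3) 2 (-10) p) = p := by
      rw [mu_mul hm (by norm_num) (by norm_num) (by norm_num) (by norm_num)]
      have e := mu_sc hm (r := r) 2 (by norm_num) p
      norm_num at e ⊢
      exact e
    rw [← e1, mT_eq]
    have h1 := hK (mu 4 (-3) 2 (-10) p).1
    show K (mu 4 (-3) 2 (-10) p).1 - K ((mu 4 (-3) 2 (-10) p).1 + 1) = h p
    rw [h1]
    show h (mu (-10) 3 (-2) 4 ((mu 4 (-3) 2 (-10) p).1, 0)) = h p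
    have e3 : (((mu 4 (-3) 2 (-10) p).1, 0) : Pq r) = mu 4 (-3) 2 (-10) p :=
      Prod.ext rfl (hz _).symm
    rw [e3, e2]
  refine ⟨![fun x y => F1 0 x y - q * K x, F1 1, F1 2], ?_, ?_⟩
  · intro x y
    show F1 1 x y - F1 1 (mu 4 (-3) 2 (-10) (x, y)).1 (mu 4 (-3) 2 (-10) (x, y)).2 +
      ((F1 0 (mu 4 (-3) 2 (-10) (x, y)).1 (mu 4 (-3) 2 (-10) (x, y)).2 -
          q * K (mu 4 (-3) 2 (-10) (x, y)).1) -
        (F1 0 (mu 4 1 2 4 (x, y)).1 (mu 4 1 2 4 (x, y)).2 - q * K (mu 4 1 2 4 (x, y)).1)) -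
      (F1 2 x y - F1 2 (mu 6 (-1) 2 (-2) (x, y)).1 (mu 6 (-1) 2 (-2) (x, y)).2) = 0
    have h1 := hE (x, y)
    have h2 := hh (x, y)
    have h3 := hKp (x, y)
    have h1' : E (x, y) = F1 1 x y - F1 1 (mu 4 (-3) 2 (-10) (x, y)).1 (mu 4 (-3) 2 (-10) (x, y)).2 +
      (F1 0 (mu 4 (-3) 2 (-10) (x, y)).1 (mu 4 (-3) 2 (-10) (x, y)).2 -
        F1 0 (mu 4 1 2 4 (x, y)).1 (mu 4 1 2 4 (x, y)).2) -
      (F1 2 x y - F1 2 (mu 6 (-1) 2 (-2) (x, y)).1 (mu 6 (-1) 2 (-2) (x, y)).2) := h1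
    linear_combination (-1 : ℤ) * h1' + h2 - (q : ℤ) * h3
  · intro i x y
    fin_cases i
    · show ((F1 0 x y - q * K x : ℤ) : ZMod q) = f 0 x y
      push_cast
      rw [hF1, ZMod.natCast_self, zero_mul, sub_zero]
    · exact hF1 1 x y
    · exact hF1 2 x y

end LiftM7H

/-- Lifting solutions of the relation for `p = 7`. -/
theorem liftCoreH7 (hm : S7Trm) (r q : ℕ) (hq0 : q ≠ 0)
    (f : Fin 3 → ZMod (7 ^ r) → ZMod (7 ^ 0) → ZMod q) (hf : RelH f) :
    ∃ F : Fin 3 → ZMod (7 ^ r) → ZMod (7 ^ 0) → ℤ, RelH F ∧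
      ∀ i x y, ((F i x y : ℤ) : ZMod q) = f i x y :=
  LiftM7H.main hm r q hq0 f hf

end Pool.Agent.Helper79.THE
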