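import Pool.Agent.Helper14.W5.StD
import Pool.Agent.Helper79.THE.Cyc2

/-!
# The action of matrices on the points of the plane of type `(r, 0)`, `p = 5`
-/

set_option autoImplicit false

namespace Pool.Agent.Helper79.THE.Mu5

open Pool.Agent.Helper14.W5 (tr5 S5Trm)

abbrev Pq (r : ℕ) : Type := ZMod (5 ^ r) × ZMod (5 ^ 0)

instance fintypePq (r : ℕ) : Fintype (Pq r) := by
  have hN : NeZero (5 ^ r) := ⟨by positivity⟩
  have hN0 : NeZero (5 ^ 0) := ⟨by positivity⟩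
  infer_instance

def mu {r : ℕ} (a b c d : ℤ) (p : Pq r) : Pq r :=
  tr5 a b c d (fun x y => ((x, y) : Pq r)) p.1 p.2

theorem mu_mul (hTrm : S5Trm) {r : ℕ} {a b c d a' b' c' d' : ℤ} (h1 : ¬ 5 ∣ a)
    (h2 : ¬ 5 ∣ d) (h3 : ¬ 5 ∣ a') (h4 : ¬ 5 ∣ d') (p : Pq r) :
    mu a' b' c' d' (mu a b c d p) =
      mu (a * a' + 5 * b * c') (a * b' + b * d') (c * a' + d * c') (5 * c * b' + d * d') p := by
  have h := congrFun (congrFun ((hTrm (Pq r) r 0 (fun x y => (x, y))).1 a b c d a' b' c' d'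
    h1 h2 h3 h4) p.1) p.2
  exact h

theorem mu_one (hTrm : S5Trm) {r : ℕ} (p : Pq r) : mu 1 0 0 1 p = p :=
  congrFun (congrFun (hTrm (Pq r) r 0 (fun x y => (x, y))).2.1 p.1) p.2

theorem mu_scl (hTrm : S5Trm) {r : ℕ} (k a b c d : ℤ) (hk : ¬ 5 ∣ k) (ha : ¬ 5 ∣ a)
    (hd : ¬ 5 ∣ d) (p : Pq r) : mu (k * a) (k * b) (k * c) (k * d) p = mu a b c d p :=
  congrFun (congrFun ((hTrm (Pq r) r 0 (fun x y => (x, y))).2.2 k a b c d hk ha hd) p.1) p.2

/-- Scalar matrices act trivially. -/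
theorem mu_sc (hTrm : S5Trm) {r : ℕ} (k : ℤ) (hk : ¬ 5 ∣ k) (p : Pq r) :
    mu k 0 0 k p = p := by
  have h := mu_scl hTrm k 1 0 0 1 hk (by norm_num) (by norm_num) p
  rw [mul_one, mul_zero] at h
  rw [h, mu_one hTrm]

/-- The sum over the plane does not change under a matrix with an inverse up to a scalar. -/
theorem sum_mu (hTrm : S5Trm) {r : ℕ} (a b c d : ℤ) (h1 : ¬ 5 ∣ a) (h2 : ¬ 5 ∣ d)
    (h3 : ¬ 5 ∣ a * d - 5 * b * c) (F : Pq r → ℤ) : ∑ p, F (mu a b c d p) = ∑ p, F p := by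
  have hb : Function.Bijective (mu a b c d : Pq r → Pq r) := by
    refine Finite.injective_iff_bijective.1 ?_
    have hl : Function.LeftInverse (mu d (-b) (-c) a : Pq r → Pq r) (mu a b c d) := by
      intro p
      rw [mu_mul hTrm h1 h2 h2 h1]
      have e := mu_sc hTrm (r := r) (a * d - 5 * b * c) h3 p
      have e1 : a * d + 5 * b * -c = a * d - 5 * b * c := by ring
      have e2 : a * -b + b * a = 0 := by ring
      have e3 : c * d + d * -c = 0 := by ring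
      have e4 : 5 * c * -b + d * a = a * d - 5 * b * c := by ring
      rw [e1, e2, e3, e4]
      exact e
    exact hl.injective
  exact hb.sum_comp F

theorem zero_sub (u v : ZMod (5 ^ 0)) : u = v := by
  have h : Subsingleton (ZMod (5 ^ 0)) := by
    rw [pow_zero]; infer_instance
  exact h.elim u v

theorem mT_eq {r : ℕ} (p : Pq r) : mu 1 1 0 1 p = (p.1 + 1, p.2) := by
  have i1 : ((1 : ZMod (5 ^ r)))⁻¹ = 1 := ZMod.inv_eq_of_mul_eq_one _ _ _ (by ring)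
  unfold mu tr5
  refine Prod.ext ?_ (zero_sub _ _)
  show (((1 : ℤ) : ZMod (5 ^ r)) + ((1 : ℤ) : ZMod (5 ^ r)) * p.1) *
    (((1 : ℤ) : ZMod (5 ^ r)) + 5 * ((0 : ℤ) : ZMod (5 ^ r)) * p.1)⁻¹ = p.1 + 1
  rw [Int.cast_one, Int.cast_zero, mul_zero, zero_mul, add_zero, i1]
  ring

/-- The difference equation for the translation on the plane. -/
theorem solveM {r q : ℕ} (k : Pq r → ℤ) (hk : ∑ x, k x = 0) (e : Pq r → ZMod q)
    (he : ∀ p, e p - e (mu 1 1 0 1 p) = ((k p : ℤ) : ZMod q)) :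
    ∃ F : Pq r → ℤ, (∀ p, F p - F (mu 1 1 0 1 p) = k p) ∧
      ∀ p, ((F p : ℤ) : ZMod q) = e p := by
  have hN : NeZero (5 ^ r) := ⟨by positivity⟩
  have hN0 : NeZero (5 ^ 0) := ⟨by positivity⟩
  have hZ : Unique (ZMod (5 ^ 0)) := by
    rw [pow_zero]; infer_instance
  have hk' : ∑ x : ZMod (5 ^ r) × ZMod (5 ^ 0), k x = 0 := by
    rw [← hk]
  obtain ⟨F, h1, h2⟩ := solveP hZ k hk' e (fun p => by rw [← mT_eq p]; exact he p)
  exact ⟨F, fun p => by rw [mT_eq p]; exact h1 p, h2⟩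

end Pool.Agent.Helper79.THE.Mu5
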