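import Pool.Agent.Helper79.THE.Asm
import Pool.Agent.Helper79.THE.M_Lft3
import Pool.Agent.Helper93.TH3.Val
import Pool.Agent.Helper76.TH3.M_BasH3
import Pool.Agent.Helper94.THW.M_UIp

/-!
# Project TH: Theorem A for the symbols `SymH` and the prime `3`
-/

set_option autoImplicit false

namespace Pool.Agent.Helper79.THE

open Pool.Agent.Helper93.TH3 Pool.Agent.Helper93.TLH

/-- Integral symbols with balanced `e`-part, `p = 3`: Theorem A modulo every power of `3`. -/
theorem taeH3 : TAHe 3 :=
  hTAHof 3 1 _ (by norm_num) (by norm_num) b3b3H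
    Pool.Agent.Helper76.TH3.ubh3' lb3 core32H
    (Pool.Agent.Helper76.TH3.hBasH3 triT lifT cntT)
    (hLft3 trm relT' exT uniT)
    Pool.Agent.Helper94.THW.hUIp

/-- The hypothesis of the analytic part, `p = 3`. -/
theorem tah3 : Pool.Agent.Helper28.TH.TAH 3 4 := TAHe.toTAH taeH3

end Pool.Agent.Helper79.THE
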