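import Pool.Agent.Helper79.THE.Asm
import Pool.Agent.Helper79.THE.M_Lft7
import Pool.Agent.Helper14.TH7.Core
import Pool.Agent.Helper76.TH7.M_BasH7
import Pool.Agent.Helper94.THW.M_UIp

/-!
# Project TH: Theorem A for the symbols `SymH` and the prime `7`
-/

set_option autoImplicit false

namespace Pool.Agent.Helper79.THE

open Pool.Agent.Helper14.TH7 Pool.Agent.Helper93.TLH

/-- Integral symbols with balanced `e`-part, `p = 7`: Theorem A modulo every power of `7`. -/
theorem taeH7 : TAHe 7 :=
  hTAHof 7 4 _ (by norm_num) (by norm_num) b3b7H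
    Pool.Agent.Helper76.TH7.ubh7 lbH7 coreV72
    (Pool.Agent.Helper76.TH7.hBasH7 triT lifT cntT)
    (hLft7 Pool.Agent.Helper84.S7.trm relT exT uniT)
    Pool.Agent.Helper94.THW.hUIp

/-- The hypothesis of the analytic part, `p = 7`. -/
theorem tah7 : Pool.Agent.Helper28.TH.TAH 7 4 := TAHe.toTAH taeH7

end Pool.Agent.Helper79.THE
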